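import Pool.Agent.W894.SF.Defs

/-!
Basic lemmas on back-and-forth equivalence.
-/

set_option autoImplicit false

namespace Pool.Agent.W894.SF

section

variable {A A' A'' : Type} [Str A] [Str A'] [Str A'']

/-- dependence only on the first entries -/
theorem BF.congr {n : ℕ} : ∀ {k : ℕ} {b b1 : ℕ → A} {b' b1' : ℕ → A'}, BF n k A A' b b' →
    (∀ i < k, b1 i = b i) → (∀ i < k, b1' i = b' i) → BF n k A A' b1 b1' := by
  induction n with
  | zero =>
    intro k b b1 b' b1' h h1 h2 op i j l hi hj hl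
    rw [h1 i hi, h1 j hj, h1 l hl, h2 i hi, h2 j hj, h2 l hl]
    exact h op i j l hi hj hl
  | succ n _ =>
    intro k b b1 b' b1' h h1 h2 k0 hk0 k'
    obtain ⟨g1, g2⟩ := h k0 hk0 k'
    constructor
    · intro c hc
      obtain ⟨c', hc', h3⟩ := g1 c fun i hi => by rw [hc i hi, h1 i (hi.trans_le hk0)]
      exact ⟨c', fun i hi => by rw [hc' i hi, h2 i (hi.trans_le hk0)], h3⟩
    · intro c' hc'
      obtain ⟨c, hc, h3⟩ := g2 c' fun i hi => by rw [hc' i hi, h2 i (hi.trans_le hk0)]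
      exact ⟨c, fun i hi => by rw [hc i hi, h1 i (hi.trans_le hk0)], h3⟩

theorem BF.mono_k {n k k0 : ℕ} {b : ℕ → A} {b' : ℕ → A'} (h : BF n k A A' b b') (hk : k0 ≤ k) :
    BF n k0 A A' b b' := by
  cases n with
  | zero =>
    intro op i j l hi hj hl
    exact h op i j l (hi.trans_le hk) (hj.trans_le hk) (hl.trans_le hk)
  | succ n =>
    intro k1 hk1 k'
    exact h k1 (hk1.trans hk) k'

theorem BF.down {n k : ℕ} {b : ℕ → A} {b' : ℕ → A'} (h : BF (n + 1) k A A' b b') :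
    BF n k A A' b b' := by
  obtain ⟨c', hc', h3⟩ := (h k le_rfl k).1 b fun _ _ => rfl
  exact h3.congr (fun _ _ => rfl) fun i hi => (hc' i hi).symm

theorem BF.mono {n m k k0 : ℕ} {b : ℕ → A} {b' : ℕ → A'} (h : BF n k A A' b b') (hn : m ≤ n)
    (hk : k0 ≤ k) : BF m k0 A A' b b' := by
  induction n with
  | zero =>
    have : m = 0 := by omega
    subst this
    exact h.mono_k hk
  | succ n ih =>
    rcases Nat.lt_or_ge n m with h1 | h1
    · have : m = n + 1 := by omega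
      subst this
      exact h.mono_k hk
    · exact ih h.down h1

theorem BF.refl (n : ℕ) : ∀ (k : ℕ) (b : ℕ → A), BF n k A A b b := by
  induction n with
  | zero => exact fun _ _ _ _ _ _ _ _ _ => Iff.rfl
  | succ n ih =>
    intro k b k0 _ k'
    exact ⟨fun c hc => ⟨c, hc, ih k' c⟩, fun c hc => ⟨c, hc, ih k' c⟩⟩

theorem BF.of_eq (n : ℕ) {k : ℕ} {b b' : ℕ → A} (h : ∀ i < k, b' i = b i) : BF n k A A b b' :=
  (BF.refl n k b).congr (fun _ _ => rfl) h

theorem BF.symm {n : ℕ} : ∀ {k : ℕ} {b : ℕ → A} {b' : ℕ → A'}, BF n k A A' b b' →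
    BF n k A' A b' b := by
  induction n with
  | zero => exact fun h op i j l hi hj hl => (h op i j l hi hj hl).symm
  | succ n ih =>
    intro k b b' h k0 hk0 k'
    obtain ⟨g1, g2⟩ := h k0 hk0 k'
    refine ⟨fun c hc => ?_, fun c hc => ?_⟩
    · obtain ⟨c', h1, h2⟩ := g2 c hc
      exact ⟨c', h1, ih h2⟩
    · obtain ⟨c', h1, h2⟩ := g1 c hc
      exact ⟨c', h1, ih h2⟩

theorem BF.trans {n : ℕ} : ∀ {k : ℕ} {b : ℕ → A} {b' : ℕ → A'} {b'' : ℕ → A''},
    BF n k A A' b b' → BF n k A' A'' b' b'' → BF n k A A'' b b'' := by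
  induction n with
  | zero => exact fun h h' op i j l hi hj hl => (h op i j l hi hj hl).trans (h' op i j l hi hj hl)
  | succ n ih =>
    intro k b b' b'' h h' k0 hk0 k'
    obtain ⟨g1, g2⟩ := h k0 hk0 k'
    obtain ⟨g3, g4⟩ := h' k0 hk0 k'
    refine ⟨fun c hc => ?_, fun c hc => ?_⟩
    · obtain ⟨c', h1, h2⟩ := g1 c hc
      obtain ⟨c'', h3, h4⟩ := g3 c' h1
      exact ⟨c'', h3, ih h2 h4⟩
    · obtain ⟨c', h1, h2⟩ := g4 c hc
      obtain ⟨c'', h3, h4⟩ := g2 c' h1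
      exact ⟨c'', h3, ih h4 h2⟩

/-- extension of the left sequence -/
theorem BF.forth {n k : ℕ} {b : ℕ → A} {b' : ℕ → A'} (h : BF (n + 1) k A A' b b') (k' : ℕ)
    {c : ℕ → A} (hc : ∀ i < k, c i = b i) :
    ∃ c' : ℕ → A', (∀ i < k, c' i = b' i) ∧ BF n k' A A' c c' :=
  (h k le_rfl k').1 c hc

/-- extension of the right sequence -/
theorem BF.back {n k : ℕ} {b : ℕ → A} {b' : ℕ → A'} (h : BF (n + 1) k A A' b b') (k' : ℕ)
    {c' : ℕ → A'} (hc : ∀ i < k, c' i = b' i) :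
    ∃ c : ℕ → A, (∀ i < k, c i = b i) ∧ BF n k' A A' c c' :=
  (h k le_rfl k').2 c' hc

end

end Pool.Agent.W894.SF
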