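import Mathlib
import Pool.Agent.Helper578.JD.Defs

/-!
Peano arithmetic in the language `(+, ·, S, 0)`: terms, formulas, satisfaction, the classes `Σ_n`,
models, Gödel numbers, atomic diagrams, and Solovay families.
-/

set_option autoImplicit false

namespace Pool.Agent.W894.SF

open Encodable Pool.Agent.Helper578.JD Pool.Agent.Helper578.JD.Oracle

/-- Terms of the language `(+, ·, S, 0)`; the variables are `x_0, x_1, ...`. -/
inductive Tm : Type
  | var (i : ℕ) : Tm
  | zero : Tm
  | succ (t : Tm) : Tm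
  | add (s t : Tm) : Tm
  | mul (s t : Tm) : Tm

/-- First-order formulas of the language `(+, ·, S, 0)`, built from equations by `¬`, `∧`, `∃ x_i`
(the other connectives and `∀ x_i = ¬ ∃ x_i ¬` are abbreviations). -/
inductive Fm : Type
  | eq (s t : Tm) : Fm
  | neg (φ : Fm) : Fm
  | and (φ ψ : Fm) : Fm
  | ex (i : ℕ) (φ : Fm) : Fm

/-- Structures for the language `(+, ·, S, 0)`. -/
class Str (A : Type) where
  zero : A
  succ : A → A
  add : A → A → A
  mul : A → A → A

/-- The value of a term. -/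
def Tm.val {A : Type} [Str A] (v : ℕ → A) : Tm → A
  | .var i => v i
  | .zero => Str.zero
  | .succ t => Str.succ (t.val v)
  | .add s t => Str.add (s.val v) (t.val v)
  | .mul s t => Str.mul (s.val v) (t.val v)

/-- Satisfaction of a formula by an assignment of values to the variables. -/
def Sat {A : Type} [Str A] : (ℕ → A) → Fm → Prop
  | v, .eq s t => s.val v = t.val v
  | v, .neg φ => ¬ Sat v φ
  | v, .and φ ψ => Sat v φ ∧ Sat v ψ
  | v, .ex i φ => ∃ x : A, Sat (Function.update v i x) φ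

/-- The variable `x_i` occurs in the term. -/
def Tm.Occ (i : ℕ) : Tm → Prop
  | .var j => i = j
  | .zero => False
  | .succ t => t.Occ i
  | .add s t => s.Occ i ∨ t.Occ i
  | .mul s t => s.Occ i ∨ t.Occ i

/-- The variable `x_i` is free in the formula. -/
def Fm.Free (i : ℕ) : Fm → Prop
  | .eq s t => s.Occ i ∨ t.Occ i
  | .neg φ => φ.Free i
  | .and φ ψ => φ.Free i ∨ ψ.Free i
  | .ex j φ => i ≠ j ∧ φ.Free i

/-- Sentences: formulas without free variables. -/
def Fm.Closed (φ : Fm) : Prop := ∀ i, ¬ φ.Free i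

/-- `Δ_0` formulas: built from equations by `¬`, `∧` and bounded quantification
`∃ x_i (x_i ≤ t ∧ φ)`, where `x_i` does not occur in the term `t` and `x_i ≤ t` stands for
`∃ z, x_i + z = t` (with a variable `z` different from `x_i` and not occurring in `t`). -/
inductive Del : Fm → Prop
  | eq (s t : Tm) : Del (.eq s t)
  | neg {φ : Fm} : Del φ → Del (.neg φ)
  | and {φ ψ : Fm} : Del φ → Del ψ → Del (.and φ ψ)
  | bex {φ : Fm} (i z : ℕ) (t : Tm) : i ≠ z → ¬ t.Occ i → ¬ t.Occ z → Del φ →
      Del (.ex i (.and (.ex z (.eq (.add (.var i) (.var z)) t)) φ))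

/-- A block of existential quantifiers. -/
def exs : List ℕ → Fm → Fm
  | [], φ => φ
  | i :: l, φ => .ex i (exs l φ)

/-- `Σ_n` formulas: `Σ_0` is `Δ_0`, and a `Σ_{n+1}` formula is a block of existential quantifiers in
front of the negation of a `Σ_n` formula (a `Π_n` formula). -/
inductive Sig : ℕ → Fm → Prop
  | zero {φ : Fm} : Del φ → Sig 0 φ
  | succ {n : ℕ} {φ : Fm} (l : List ℕ) : Sig n φ → Sig (n + 1) (exs l (.neg φ))

/-- `A` is a model of Peano arithmetic: the axioms for `S`, `+`, `·`, and the induction axioms for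
all formulas (`v` gives the values of the parameters). -/
structure IsPA (A : Type) [Str A] : Prop where
  succ_ne : ∀ x : A, Str.succ x ≠ (Str.zero : A)
  succ_inj : ∀ x y : A, Str.succ x = Str.succ y → x = y
  add_zero : ∀ x : A, Str.add x Str.zero = x
  add_succ : ∀ x y : A, Str.add x (Str.succ y) = Str.succ (Str.add x y)
  mul_zero : ∀ x : A, Str.mul x Str.zero = Str.zero
  mul_succ : ∀ x y : A, Str.mul x (Str.succ y) = Str.add (Str.mul x y) x
  ind : ∀ (φ : Fm) (i : ℕ) (v : ℕ → A), Sat (Function.update v i Str.zero) φ →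
    (∀ x, Sat (Function.update v i x) φ → Sat (Function.update v i (Str.succ x)) φ) →
    ∀ x, Sat (Function.update v i x) φ

/-- The value `S ... S 0` of the numeral of `n`. -/
def nm (A : Type) [Str A] : ℕ → A
  | 0 => Str.zero
  | n + 1 => Str.succ (nm A n)

/-- `A` is nonstandard: some element is not the value of a numeral. -/
def Nonstandard (A : Type) [Str A] : Prop := ∃ a : A, ∀ n : ℕ, a ≠ nm A n

/-- Gödel numbers of terms. -/
def Tm.code : Tm → ℕ
  | .var i => 5 * i
  | .zero => 1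
  | .succ t => 5 * t.code + 2
  | .add s t => 5 * Nat.pair s.code t.code + 3
  | .mul s t => 5 * Nat.pair s.code t.code + 4

/-- Gödel numbers of formulas. -/
def Fm.code : Fm → ℕ
  | .eq s t => 4 * Nat.pair s.code t.code
  | .neg φ => 4 * φ.code + 1
  | .and φ ψ => 4 * Nat.pair φ.code ψ.code + 2
  | .ex i φ => 4 * Nat.pair i φ.code + 3

/-- The flat atomic facts: number `0` is `x = y`, number `1` is `x = 0`, number `2` is `S x = y`,
number `3` is `x + y = z`, number `4` is `x · y = z`. -/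
def at' {A : Type} [Str A] (op : ℕ) (x y z : A) : Prop :=
  (op = 0 ∧ x = y) ∨ (op = 1 ∧ x = Str.zero) ∨ (op = 2 ∧ Str.succ x = y) ∨
    (op = 3 ∧ Str.add x y = z) ∨ (op = 4 ∧ Str.mul x y = z)

/-- The atomic diagram of a structure with universe `U ⊆ ω`, as a subset of `ω`: the codes
`⟨op, ⟨x, ⟨y, z⟩⟩⟩` of the true atomic facts about elements `x, y, z` of `U`. -/
def diagram (U : Set ℕ) [Str U] : Set ℕ :=
  {w | ∃ (op : ℕ) (x y z : U), w = Nat.pair op (Nat.pair x (Nat.pair y z)) ∧ at' op x y z}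

/-- The set of the Gödel numbers of the `Σ_n` sentences which are true in `A`. -/
def Th (A : Type) [Str A] (n : ℕ) : Set ℕ :=
  {c | ∃ φ : Fm, φ.Closed ∧ Sig n φ ∧ φ.code = c ∧ ∀ v : ℕ → A, Sat v φ}

/-- `Φ_e^X(x) = y`: the `e`-th computably enumerable set contains the code of `(c, (x, y))` for some
finite piece of information `c` which is correct for `X`. -/
def Phi (X : Set ℕ) (e x y : ℕ) : Prop := ∃ c : Info, Ok X c ∧ W e (encode (c, (x, y)))

/-- `e` is an index of the (total) function `f` as a function computable in `X`. -/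
def IsIndex (X : Set ℕ) (e : ℕ) (f : ℕ → ℕ) : Prop := ∀ x y, Phi X e x y ↔ f x = y

/-- `e` is an index of the set `Y` as a set computable in `X`. -/
def IsSetIndex (X : Set ℕ) (e : ℕ) (Y : Set ℕ) : Prop := IsIndex X e (Defs.chiN Y)

/-- `t` is a Solovay family for the theory with the parts `T n` relative to `X`: `t n` is computable
in the `(n-1)`-st jump of `X`, uniformly in `n ≥ 1`; it has a limit, which is an index of `T n` as a
set computable in `X`; all its values are indices, as sets computable in `X`, of subsets of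
`T n`. -/
structure SolovayFamily (T : ℕ → Set ℕ) (X : Set ℕ) (t : ℕ → ℕ → ℕ) : Prop where
  uniform : ∃ f : ℕ → ℕ, Computable f ∧ ∀ n, 1 ≤ n → IsIndex (jump^[n - 1] X) (f n) (t n)
  limit : ∀ n, 1 ≤ n → ∃ s e, (∀ r, s ≤ r → t n r = e) ∧ IsSetIndex X e (T n)
  subset : ∀ n, 1 ≤ n → ∀ s, ∃ Y ⊆ T n, IsSetIndex X (t n s) Y

/-! ### Tools -/

/-- Auxiliary classes: `LS true n` are the formulas built from `Δ_0` formulas with `∧`, `¬`, `∃` and
complexity `Σ_n`, `LS false n` those of complexity `Π_n`. -/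
inductive LS : Bool → ℕ → Fm → Prop
  | del {b : Bool} {n : ℕ} {φ : Fm} : Del φ → LS b n φ
  | neg {b : Bool} {n : ℕ} {φ : Fm} : LS b n φ → LS (!b) n (.neg φ)
  | and {b : Bool} {n : ℕ} {φ ψ : Fm} : LS b n φ → LS b n ψ → LS b n (.and φ ψ)
  | ex {n i : ℕ} {φ : Fm} : LS true (n + 1) φ → LS true (n + 1) (.ex i φ)
  | up {b b' : Bool} {n : ℕ} {φ : Fm} : LS b n φ → LS b' (n + 1) φ

/-- A form of saturation: countable types with finitely many parameters and infinitely many
variables are realised. -/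
def Satd (A : Type) [Str A] : Prop :=
  ∀ (Φ : Set Fm) (k : ℕ) (b : ℕ → A),
    (∀ F : Finset Fm, (∀ φ ∈ F, φ ∈ Φ) → ∃ c : ℕ → A, (∀ i < k, c i = b i) ∧ ∀ φ ∈ F, Sat c φ) →
    ∃ c : ℕ → A, (∀ i < k, c i = b i) ∧ ∀ φ ∈ Φ, Sat c φ

/-- Back-and-forth equivalence with `n` rounds of the first `k` entries of two sequences. -/
def BF : ℕ → ℕ → ∀ (A A' : Type) [Str A] [Str A'], (ℕ → A) → (ℕ → A') → Prop
  | 0, k, _, _, _, _, b, b' => ∀ op i j l, i < k → j < k → l < k →
      (at' op (b i) (b j) (b l) ↔ at' op (b' i) (b' j) (b' l))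
  | n + 1, k, A, A', _, _, b, b' => ∀ k0 ≤ k, ∀ k',
      (∀ c : ℕ → A, (∀ i < k0, c i = b i) → ∃ c' : ℕ → A', (∀ i < k0, c' i = b' i) ∧
        BF n k' A A' c c') ∧
      (∀ c' : ℕ → A', (∀ i < k0, c' i = b' i) → ∃ c : ℕ → A, (∀ i < k0, c i = b i) ∧
        BF n k' A A' c c')

end Pool.Agent.W894.SF
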