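import Pool.Agent.W894.SF.Defs
import Pool.Agent.Helper227.ENJ.Defs

/-!
Statements of the independent parts, as propositions.
-/

set_option autoImplicit false

namespace Pool.Agent.W894.SF

open Encodable Pool.Agent.Helper578.JD Pool.Agent.Helper578.JD.Oracle

/-- The algebraic operations agree with the structure; the order is discrete; the beta function is
total (`Beta a c i v` says that `v` is the remainder of `a` modulo `1 + (i+1) c`). -/
structure Cpt (A : Type) [Str A] [CommSemiring A] [LinearOrder A] : Prop where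
  zero : (Str.zero : A) = 0
  succ : ∀ x : A, Str.succ x = x + 1
  add : ∀ x y : A, Str.add x y = x + y
  mul : ∀ x y : A, Str.mul x y = x * y
  disc : ∀ x : A, x < 1 → x = 0
  beta : ∀ a c i : A, ∃ v, Helper227.EN.Beta a c i v

/-- ALG: the algebra of a model of Peano arithmetic. -/
def S_ALG : Prop :=
  ∀ (A : Type) [Str A], IsPA A → ∃ (_ : CommSemiring A) (_ : LinearOrder A)
    (_ : IsStrictOrderedRing A) (_ : CanonicallyOrderedAdd A), Cpt A

/-- CMP: compactness, with a saturated model. -/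
def S_CMP : Prop :=
  ∀ Φ : Set Fm, (∀ F : Finset Fm, (∀ φ ∈ F, φ ∈ Φ) →
      ∃ (A : Type) (_ : Str A), IsPA A ∧ ∃ v : ℕ → A, ∀ φ ∈ F, Sat v φ) →
    ∃ (A : Type) (_ : Str A), IsPA A ∧ Satd A ∧ ∃ v : ℕ → A, ∀ φ ∈ Φ, Sat v φ

/-- RE: truth in all models of Peano arithmetic is computably enumerable. -/
def S_RE : Prop :=
  ∀ ψ : Fm, REPred fun p : ℕ × ℕ => ∀ (A : Type) [Str A], IsPA A → ∀ v : ℕ → A,
    v 0 = nm A p.1 → v 1 = nm A p.2 → Sat v ψ

/-- The standard model. -/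
@[reducible] def strN : Str ℕ := ⟨0, fun x => x + 1, fun x y => x + y, fun x y => x * y⟩

/-- DPRM: a `Δ_0` formula with a search bound `x_0` for the universal computably enumerable
relation. -/
def S_DPRM : Prop :=
  ∃ ψ : Fm, Del ψ ∧ ∀ e c : ℕ, W e c ↔
    ∃ w : ℕ, @Sat ℕ strN (fun i => if i = 0 then w else if i = 1 then c else e) ψ

/-- PRENEX: formulas of the auxiliary classes which do not depend on the assignment are equivalent to
`Σ_n` sentences. -/
def S_PRENEX : Prop :=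
  ∀ (n : ℕ) (φ : Fm), 1 ≤ n → LS true n φ →
    (∀ (A : Type) [Str A] (v v' : ℕ → A), Sat v φ ↔ Sat v' φ) →
    ∃ ψ : Fm, Sig n ψ ∧ ψ.Closed ∧ ∀ (A : Type) [Str A] (v : ℕ → A), Sat v ψ ↔ Sat v φ

/-- EF: back-and-forth equivalence preserves formulas. -/
def S_EF : Prop :=
  ∀ φ : Fm, ∃ n0 : ℕ, ∀ n, n0 ≤ n → ∀ (k : ℕ) (A A' : Type) [Str A] [Str A'] (b : ℕ → A)
    (b' : ℕ → A'), BF n k A A' b b' → ∀ σ : ℕ → ℕ, (∀ i, σ i < k) →
    (Sat (fun i => b (σ i)) φ ↔ Sat (fun i => b' (σ i)) φ)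

/-- ABS: `Δ_0` formulas are absolute for standard numbers. -/
def S_ABS : Prop :=
  ∀ (A : Type) [Str A], IsPA A → ∀ φ, Del φ → ∀ v : ℕ → ℕ,
    (Sat (fun i => nm A (v i)) φ ↔ @Sat ℕ strN v φ)

end Pool.Agent.W894.SF
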